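import Pool.Agent.Lib.MP_4b1228_nt.PP.Dens2
import Pool.Agent.Lib.MP_4b1228_nt.PP.U48F

namespace Pool.Agent.Results.MP_4b1228_nt.LargePrime

open Pool.Agent.Lib.MP_4b1228_nt.PP

open scoped Classical in
/-- For a positive proportion of the integers `m ≤ N`, `m` is of the form `2 q n` with `q` prime
and `n > 1`, and `m ^ 2 + 1` has a prime factor larger than `N ^ (23 / 16)`. -/
theorem result : ∃ c : ℝ, 0 < c ∧ ∀ᶠ N : ℕ in Filter.atTop,
    c * N ≤ (((Finset.Icc 1 N).filter fun m : ℕ =>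
      (∃ q n : ℕ, q.Prime ∧ 1 < n ∧ m = 2 * q * n) ∧
      ∃ p : ℕ, p.Prime ∧ p ∣ m ^ 2 + 1 ∧ (N : ℝ) ^ (23 / 16 : ℝ) < p).card : ℝ) := by
  obtain ⟨c, hc, h⟩ := dens2 (Asm.glob (by norm_num) (by norm_num) R5.U48F.cert)
  exact ⟨c, hc, h.mono fun N hN => by convert hN⟩

end Pool.Agent.Results.MP_4b1228_nt.LargePrime
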