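import Pool.Agent.Lib.MP_4b1228_nt.GS.Cert
import Pool.Agent.Lib.MP_4b1228_nt.GR.All
import Pool.Agent.Lib.MP_4b1228_nt.GR.Fin

/-!
Primes `a ^ 2 + b ^ 2` with `a = 2 q n` or `a = (2 n + 1) q` in narrow sectors: the expected order,
uniformly in the direction.
-/

namespace Pool.Agent.Results.MP_4b1228_nt.NarrowSectors

open Pool.Agent.Lib.MP_4b1228_nt

open scoped Classical in
theorem result (ε : ℝ) (hε : 0 < ε) :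
    ∃ c : ℝ, 0 < c ∧ ∀ᶠ X : ℝ in Filter.atTop, ∀ s α : ℝ, 0 ≤ s → s ≤ 1 →
      X ^ (ε - 5 / 12) ≤ α → α ≤ 1 →
      c * α ≤ ∑ p ∈ (Finset.Ioc ⌊X⌋₊ ⌊X ^ (1 + ε)⌋₊).filter (fun p : ℕ =>
        p.Prime ∧ ∃ a b q n : ℕ, p = a ^ 2 + b ^ 2 ∧ 0 < b ∧ |(b : ℝ) / a - s| ≤ α ∧ q.Prime ∧
          ((1 < n ∧ a = 2 * q * n) ∨ (1 ≤ n ∧ Even b ∧ a = (2 * n + 1) * q))), 1 / (p : ℝ) := by
  obtain ⟨c, hc, h⟩ := GS.R.fin3 GS.bX GS.R.rU (GS.R.fam GS.bX)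
    (GS.R.rM (GS.cert2 GS.sign2 (GS.str2 GS.sign2))) ε hε
  exact ⟨c, hc, h.mono fun X hX s α h0 h1 h2 h3 => by convert hX s α h0 h1 h2 h3⟩

end Pool.Agent.Results.MP_4b1228_nt.NarrowSectors
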