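import Pool.Agent.Lib.MP_9d27bc_nt.C.All

set_option autoImplicit false

namespace Pool.Agent.Results.MP_4b1228_nt.OddParity

open Pool.Agent.Lib.MP_9d27bc_nt.C

open scoped Classical in
/-- For every `W`, a positive proportion of the integers `m` are of the form `2 q n` with `q` prime
and `n > 1` and such that `m ^ 2 + 1` has an odd number of prime factors, all larger than `W`. -/
theorem result : ∀ W : ℕ, ∃ c : ℝ, 0 < c ∧ ∀ᶠ N : ℕ in Filter.atTop,
    c * N ≤ (((Finset.Icc 1 N).filter fun m : ℕ =>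
      (∃ q n : ℕ, q.Prime ∧ 1 < n ∧ m = 2 * q * n) ∧
      Odd (ArithmeticFunction.cardFactors (m ^ 2 + 1)) ∧
      ∀ l : ℕ, l.Prime → l ∣ m ^ 2 + 1 → W < l).card : ℝ) := by
  intro W
  obtain ⟨c, hc, h⟩ := ach stage1 Two.stage2 W
  exact ⟨c, hc, h.mono fun N hN => by convert hN⟩

end Pool.Agent.Results.MP_4b1228_nt.OddParity
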